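import Pool.Agent.X229.Adomatic

namespace Pool.Agent.Results.MP_a3f2aa_co.Interpolation

open Finset Pool.Agent.X229.Adomatic

/-- `D` is a dominating set of `G`. -/
def Dominating {V : Type*} (G : SimpleGraph V) (D : Finset V) : Prop :=
  ∀ v, v ∉ D → ∃ u ∈ D, G.Adj u v

/-- `D` is an indivisible dominating set of `G`. -/
def Indivisible {V : Type*} [DecidableEq V] (G : SimpleGraph V) (D : Finset V) : Prop :=
  Dominating G D ∧ ¬ ∃ A B : Finset V, A ∪ B = D ∧ Disjoint A B ∧ A.Nonempty ∧ B.Nonempty ∧
    Dominating G A ∧ Dominating G B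

/-- there is a partition of the vertex set into exactly `m` dominating sets -/
def HasDomPartition {V : Type*} [DecidableEq V] [Fintype V] (G : SimpleGraph V) (m : ℕ) : Prop :=
  ∃ P : Finpartition (Finset.univ : Finset V), P.parts.card = m ∧ ∀ D ∈ P.parts, Dominating G D

/-- there is a partition of the vertex set into exactly `m` indivisible dominating sets -/
def HasIndPartition {V : Type*} [DecidableEq V] [Fintype V] (G : SimpleGraph V) (m : ℕ) : Prop :=
  ∃ P : Finpartition (Finset.univ : Finset V), P.parts.card = m ∧ ∀ D ∈ P.parts, Indivisible G D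

/-- the domatic number -/
noncomputable def domatic {V : Type*} [DecidableEq V] [Fintype V] (G : SimpleGraph V) : ℕ :=
  sSup {m | HasDomPartition G m}

/-- the adomatic number -/
noncomputable def adomatic {V : Type*} [DecidableEq V] [Fintype V] (G : SimpleGraph V) : ℕ :=
  sInf {m | HasIndPartition G m}

section general

variable {V : Type*} [DecidableEq V] {f : Finset V → Prop}

lemma sup_insert_sdiff {Q : Finset (Finset V)} {D : Finset V} (hn : D ∉ Q)
    (hd : ((insert D Q : Finset (Finset V)) : Set (Finset V)).PairwiseDisjoint id) :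
    (insert D Q).sup id \ D = Q.sup id := by
  rw [sup_insert, id]
  have hdis : Disjoint D (Q.sup id) := by
    rw [Finset.disjoint_sup_right]
    intro E hE
    have hne : D ≠ E := fun h => hn (h ▸ hE)
    exact hd (by simp) (by simp [hE]) hne
  ext a
  simp only [mem_sdiff, sup_eq_union, mem_union]
  constructor
  · rintro ⟨h | h, h2⟩
    · exact absurd h h2
    · exact h
  · intro h
    exact ⟨Or.inr h, fun h2 => (Finset.disjoint_left.1 hdis h2 h)⟩

lemma dom_of_family (Q : Finset (Finset V)) : (∀ D ∈ Q, f D) →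
    (Q : Set (Finset V)).PairwiseDisjoint id → Dom f Q.card (Q.sup id) := by
  induction Q using Finset.induction_on with
  | empty => intro _ _; trivial
  | insert D Q hn ih =>
    intro h hd
    rw [card_insert_of_notMem hn]
    refine ⟨D, ?_, h D (mem_insert_self _ _), ?_⟩
    · exact Finset.le_sup (f := id) (mem_insert_self D Q)
    · rw [sup_insert_sdiff hn hd]
      exact ih (fun E hE => h E (mem_insert_of_mem hE)) (hd.subset (by simp))

lemma good_of_family (Q : Finset (Finset V)) : (∀ D ∈ Q, Ind f D) →
    (Q : Set (Finset V)).PairwiseDisjoint id → Good f Q.card (Q.sup id) := by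
  induction Q using Finset.induction_on with
  | empty => intro _ _; rfl
  | insert D Q hn ih =>
    intro h hd
    rw [card_insert_of_notMem hn]
    refine ⟨D, ?_, h D (mem_insert_self _ _), ?_⟩
    · exact Finset.le_sup (f := id) (mem_insert_self D Q)
    · rw [sup_insert_sdiff hn hd]
      exact ih (fun E hE => h E (mem_insert_of_mem hE)) (hd.subset (by simp))

lemma fin_of_good (h0 : ¬ f ∅) : ∀ (k : ℕ) (S : Finset V), Good f k S →
    ∃ P : Finpartition S, P.parts.card = k ∧ ∀ D ∈ P.parts, Ind f D := by
  intro k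
  induction k with
  | zero =>
    intro S hS
    have hS' : S = ∅ := hS
    subst hS'
    exact ⟨Finpartition.empty (Finset V), by simp [Finpartition.empty], by
      intro D hD; simp [Finpartition.empty] at hD⟩
  | succ k ih =>
    intro S hS
    obtain ⟨A, hAS, hA, hG⟩ := hS
    obtain ⟨P, hP, hP2⟩ := ih _ hG
    have hb : A ≠ ⊥ := by
      rintro rfl
      exact h0 hA.1
    refine ⟨P.extend hb disjoint_sdiff_self_left (by
      rw [sup_eq_union, sdiff_union_of_subset hAS]), ?_, ?_⟩
    · rw [Finpartition.card_extend, hP]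
    · intro D hD
      rw [Finpartition.extend_parts, mem_insert] at hD
      rcases hD with h | h
      · rw [h]; exact hA
      · exact hP2 D h

lemma good_union {k₂ : ℕ} : ∀ (k₁ : ℕ) (B S : Finset V), B ⊆ S → Good f k₁ B →
    Good f k₂ (S \ B) → Good f (k₁ + k₂) S := by
  intro k₁
  induction k₁ with
  | zero =>
    intro B S _ h1 h2
    have h1' : B = ∅ := h1
    rw [h1', sdiff_empty] at h2
    rw [Nat.zero_add]; exact h2
  | succ k ih =>
    intro B S hB h1 h2
    obtain ⟨A, hAB, hA, hG⟩ := h1
    rw [show k + 1 + k₂ = (k + k₂) + 1 by ring]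
    refine ⟨A, hAB.trans hB, hA, ih (B \ A) (S \ A) (sdiff_subset_sdiff hB subset_rfl) hG ?_⟩
    have : (S \ A) \ (B \ A) = S \ B := by
      ext a
      simp only [mem_sdiff]
      constructor
      · rintro ⟨⟨h3, h4⟩, h5⟩
        exact ⟨h3, fun h6 => h5 ⟨h6, h4⟩⟩
      · rintro ⟨h3, h4⟩
        exact ⟨⟨h3, fun h6 => h4 (hAB h6)⟩, fun h6 => h4 h6.1⟩
    rw [this]; exact h2

lemma exists_good (h0 : ¬ f ∅) : ∀ (n : ℕ) (S : Finset V), S.card ≤ n → f S →
    ∃ k, Good f k S := by
  intro n
  induction n with
  | zero =>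
    intro S hS hf
    exact absurd (by rwa [card_eq_zero.1 (Nat.le_zero.1 hS)] at hf) h0
  | succ n ih =>
    intro S hS hf
    by_cases hI : Ind f S
    · exact ⟨1, S, subset_rfl, hI, by change _ = _; rw [sdiff_self]; rfl⟩
    · have : ∃ B, B ⊆ S ∧ f B ∧ f (S \ B) := by
        by_contra hcon
        exact hI ⟨hf, fun B hB h1 h2 => hcon ⟨B, hB, h1, h2⟩⟩
      obtain ⟨B, hB, h1, h2⟩ := this
      have hBne : B.Nonempty := by
        rw [nonempty_iff_ne_empty]; rintro rfl; exact h0 h1
      have hCne : (S \ B).Nonempty := by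
        rw [nonempty_iff_ne_empty]; intro h; rw [h] at h2; exact h0 h2
      have c1 := card_sdiff_add_card_eq_card hB
      have c2 := hBne.card_pos
      have c3 := hCne.card_pos
      obtain ⟨k₁, g1⟩ := ih B (by omega) h1
      obtain ⟨k₂, g2⟩ := ih (S \ B) (by omega) h2
      exact ⟨k₁ + k₂, good_union k₁ B S hB g1 g2⟩

end general

section graph

variable {V : Type*} [DecidableEq V] [Fintype V]

lemma ind_iff [Nonempty V] (G : SimpleGraph V) (D : Finset V) :
    Ind (Dominating G) D ↔ Indivisible G D := by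
  have h0 : ¬ Dominating G (∅ : Finset V) := by
    intro h
    obtain ⟨v⟩ := ‹Nonempty V›
    obtain ⟨u, hu, _⟩ := h v (notMem_empty v)
    exact notMem_empty u hu
  constructor
  · rintro ⟨h1, h2⟩
    refine ⟨h1, ?_⟩
    rintro ⟨A, B, hU, hd, _, _, hA, hB⟩
    apply h2 A (by rw [← hU]; exact subset_union_left) hA
    have : D \ A = B := by
      rw [← hU, union_sdiff_left]
      exact sdiff_eq_self_of_disjoint hd.symm
    rw [this]; exact hB
  · rintro ⟨h1, h2⟩
    refine ⟨h1, fun B hB hfB hfc => h2 ⟨B, D \ B, union_sdiff_of_subset hB, disjoint_sdiff,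
      ?_, ?_, hfB, hfc⟩⟩
    · rw [nonempty_iff_ne_empty]; rintro rfl; exact h0 hfB
    · rw [nonempty_iff_ne_empty]; intro h; rw [h] at hfc; exact h0 hfc

end graph

/-- **Main theorem.** For every finite graph `G` with nonempty vertex set and every `k` with
`ad(G) ≤ k ≤ d(G)` there is a partition of the vertex set into exactly `k` indivisible
dominating sets. -/
theorem result : ∀ (V : Type) [Fintype V] [DecidableEq V] [Nonempty V] (G : SimpleGraph V)
    (k : ℕ), adomatic G ≤ k → k ≤ domatic G → HasIndPartition G k := by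
  intro V _ _ _ G k hk1 hk2
  have hm : ∀ S T : Finset V, S ⊆ T → Dominating G S → Dominating G T := by
    intro S T hST hS v hv
    obtain ⟨u, hu, hadj⟩ := hS v (fun h => hv (hST h))
    exact ⟨u, hST hu, hadj⟩
  have h0 : ¬ Dominating G (∅ : Finset V) := by
    intro h
    obtain ⟨v⟩ := ‹Nonempty V›
    obtain ⟨u, hu, _⟩ := h v (notMem_empty v)
    exact notMem_empty u hu
  have huniv : Dominating G (univ : Finset V) := fun v hv => absurd (mem_univ v) hv
  have back : ∀ m, Good (Dominating G) m univ → HasIndPartition G m := by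
    intro m hG
    obtain ⟨P, h1, h2⟩ := fin_of_good h0 m univ hG
    exact ⟨P, h1, fun D hD => (ind_iff G D).1 (h2 D hD)⟩
  obtain ⟨m₀, hm₀⟩ := exists_good h0 _ univ le_rfl huniv
  have hInd : HasIndPartition G (adomatic G) :=
    Nat.sInf_mem (s := {m | HasIndPartition G m}) ⟨m₀, back m₀ hm₀⟩
  have hDom : HasDomPartition G (domatic G) := by
    apply Nat.sSup_mem (s := {m | HasDomPartition G m})
    · obtain ⟨P, h1, h2⟩ := back m₀ hm₀
      exact ⟨m₀, P, h1, fun D hD => (h2 D hD).1⟩
    · refine ⟨(univ : Finset V).card, ?_⟩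
      rintro m ⟨P, h1, _⟩
      rw [← h1]
      exact P.card_parts_le_card
  have hG : Good (Dominating G) (adomatic G) univ := by
    obtain ⟨P, h1, h2⟩ := hInd
    have := good_of_family (f := Dominating G) P.parts
      (fun D hD => (ind_iff G D).2 (h2 D hD)) P.disjoint
    rwa [h1, P.sup_parts] at this
  have hD : Dom (Dominating G) (domatic G) univ := by
    obtain ⟨P, h1, h2⟩ := hDom
    have := dom_of_family (f := Dominating G) P.parts h2 P.disjoint
    rwa [h1, P.sup_parts] at this
  exact back k (interpolation hm h0 hG hD hk1 hk2)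

end Pool.Agent.Results.MP_a3f2aa_co.Interpolation
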